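import Mathlib

set_option autoImplicit false

namespace Pool.Agent.Results.MP_19fe04_lc.Plane

open Set

/-- `B` is a Steiner `k`-system on `Ω`. -/
def Steiner {Ω : Type} (k : ℕ) (B : Set (Set Ω)) : Prop :=
  (∀ b ∈ B, ((k + 1 : ℕ) : ℕ∞) ≤ b.encard) ∧ B.Nontrivial ∧
    ∀ s : Finset Ω, s.card = k → ∃! b, b ∈ B ∧ (s : Set Ω) ⊆ b

/-- The permutation `g` maps `B` onto `B`. -/
def Pres {Ω : Type} (g : Equiv.Perm Ω) (B : Set (Set Ω)) : Prop :=
  (fun b => g '' b) '' B = B

section Aux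

lemma Pres.symm {Ω : Type} {g : Equiv.Perm Ω} {B : Set (Set Ω)} (h : Pres g B) :
    Pres g.symm B := by
  unfold Pres at *
  conv_lhs => rw [← h]
  rw [image_image]
  simp

lemma Pres.trans {Ω : Type} {g g' : Equiv.Perm Ω} {B : Set (Set Ω)} (h : Pres g B)
    (h' : Pres g' B) : Pres (g.trans g') B := by
  unfold Pres at *
  conv_rhs => rw [← h', ← h]
  rw [image_image]
  simp [image_image]

lemma pres_of {Ω : Type} {g : Equiv.Perm Ω} {B : Set (Set Ω)} (h : ∀ b ∈ B, g '' b ∈ B)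
    (h' : ∀ b ∈ B, g.symm '' b ∈ B) : Pres g B := by
  refine Subset.antisymm ?_ fun b hb => ⟨_, h' b hb, by simp⟩
  rintro _ ⟨b, hb, rfl⟩
  exact h b hb

variable {F : Type} [Field F]

/-- determinant -/
def cr (u v : F × F) : F := u.1 * v.2 - u.2 * v.1

/-- line through two points -/
def ln (x y : F × F) : Set (F × F) := {p | cr (y - x) (p - x) = 0}

/-- all lines -/
def Ls (F : Type) [Field F] : Set (Set (F × F)) := {b | ∃ x y, x ≠ y ∧ b = ln x y}

lemma cr_dep {u v : F × F} (hu : u ≠ 0) (h : cr u v = 0) : ∃ t : F, v = t • u := by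
  unfold cr at h
  by_cases a : u.1 = 0
  · have b : u.2 ≠ 0 := fun b => hu (Prod.ext a b)
    refine ⟨v.2 / u.2, Prod.ext ?_ (by simp [b])⟩
    rw [a] at h
    simp only [zero_mul, zero_sub, neg_eq_zero, mul_eq_zero, b, false_or] at h
    simp [h, a]
  · refine ⟨v.1 / u.1, Prod.ext (by simp [a]) ?_⟩
    simp only [Prod.smul_snd, smul_eq_mul]
    field_simp
    linear_combination h

lemma ln_eq {x y u v : F × F} (hxy : x ≠ y) (huv : u ≠ v) (hu : u ∈ ln x y) (hv : v ∈ ln x y) :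
    ln u v = ln x y := by
  obtain ⟨s, hs⟩ := cr_dep (sub_ne_zero.2 hxy.symm) hu
  obtain ⟨t, ht⟩ := cr_dep (sub_ne_zero.2 hxy.symm) hv
  rw [sub_eq_iff_eq_add] at hs ht
  have ne : t - s ≠ 0 := fun h => huv (by rw [hs, ht, sub_eq_zero.1 h])
  ext p
  have : cr (v - u) (p - u) = (t - s) * cr (y - x) (p - x) := by
    rw [hs, ht]; simp [cr]; ring
  simp only [ln, mem_ofPred_eq, this, mul_eq_zero, ne, false_or]

lemma l_mem (x y : F × F) : x ∈ ln x y := by simp [ln, cr]
lemma r_mem (x y : F × F) : y ∈ ln x y := by simp [ln, cr, mul_comm]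

lemma img {g : Equiv.Perm (F × F)} (h : Pres g (Ls F)) {x y : F × F} (hxy : x ≠ y) :
    g '' ln x y = ln (g x) (g y) := by
  have : g '' ln x y ∈ Ls F := h ▸ ⟨_, ⟨x, y, hxy, rfl⟩, rfl⟩
  obtain ⟨u, v, huv, e⟩ := this
  rw [e]
  exact (ln_eq huv (g.injective.ne hxy) (e ▸ ⟨x, l_mem x y, rfl⟩) (e ▸ ⟨y, r_mem x y, rfl⟩)).symm

lemma par {g : Equiv.Perm (F × F)} (h : Pres g (Ls F)) {x y u v : F × F} (hxy : x ≠ y)
    (huv : u ≠ v) (h1 : cr (y - x) (v - u) = 0) (h2 : u ∉ ln x y) :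
    cr (g y - g x) (g v - g u) = 0 := by
  by_contra hc
  obtain ⟨p, hp⟩ := g.surjective
    (g u + (cr (g y - g x) (g x - g u) / cr (g y - g x) (g v - g u)) • (g v - g u))
  have a : g p ∈ ln (g u) (g v) := by rw [hp]; simp [ln, cr]; ring
  have b : g p ∈ ln (g x) (g y) := by
    rw [hp]
    have : ∀ t : F, cr (g y - g x) (g u + t • (g v - g u) - g x)
      = t * cr (g y - g x) (g v - g u) - cr (g y - g x) (g x - g u) := by
      intro t; simp [cr]; ring
    simp only [ln, mem_ofPred_eq, this]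
    field_simp
    ring
  rw [← img h huv, mem_image_equiv, Equiv.symm_apply_apply] at a
  rw [← img h hxy, mem_image_equiv, Equiv.symm_apply_apply] at b
  obtain ⟨t, ht⟩ := cr_dep (sub_ne_zero.2 huv.symm) a
  apply h2
  have e : u = p - t • (v - u) := by rw [← ht]; simp
  simp only [ln, mem_ofPred_eq, cr, Prod.fst_sub, Prod.snd_sub] at b h1 ⊢
  have e1 := congrArg Prod.fst e
  have e2 := congrArg Prod.snd e
  simp only [Prod.fst_sub, Prod.snd_sub, Prod.smul_fst, Prod.smul_snd, smul_eq_mul] at e1 e2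
  linear_combination b - t * h1 + (y.1 - x.1) * e2 - (y.2 - x.2) * e1

lemma add1 {g : Equiv.Perm (F × F)} (h : Pres g (Ls F)) {x y z : F × F}
    (hn : cr (x - z) (y - z) ≠ 0) : g (x + y - z) = g x + g y - g z := by
  have xz : z ≠ x := by rintro rfl; simp [cr] at hn
  have yz : z ≠ y := by rintro rfl; simp [cr] at hn
  have a := par h xz (u := y) (v := x + y - z)
    (fun e => xz (by linear_combination e)) (by simp [cr]; ring) hn
  have b := par h yz (u := x) (v := x + y - z)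
    (fun e => yz (by linear_combination e)) (by simp [cr]; ring)
    (fun e => hn (by simp only [ln, mem_ofPred_eq, cr] at e ⊢; linear_combination -e))
  have c : cr (g x - g z) (g y - g z) ≠ 0 := fun e => by
    have : g y ∈ ln (g z) (g x) := e
    rw [← img h xz, mem_image_equiv, Equiv.symm_apply_apply] at this
    exact hn this
  simp only [cr, Prod.fst_sub, Prod.snd_sub] at a b c
  refine Prod.ext (mul_left_cancel₀ c ?_) (mul_left_cancel₀ c ?_)
  · simp only [Prod.fst_sub, Prod.fst_add]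
    linear_combination ((g y).1 - (g z).1) * a - ((g x).1 - (g z).1) * b
  · simp only [Prod.snd_sub, Prod.snd_add]
    linear_combination ((g y).2 - (g z).2) * a - ((g x).2 - (g z).2) * b

lemma ex_ind {u : F × F} (hu : u ≠ 0) : ∃ v, cr u v ≠ 0 := by
  by_cases a : u.1 = 0
  · exact ⟨(1, 0), by simpa [cr] using fun b => hu (Prod.ext a b)⟩
  · exact ⟨(0, 1), by simpa [cr] using a⟩

lemma add2 {g : Equiv.Perm (F × F)} (h : Pres g (Ls F)) {x y z : F × F} (hx : x ≠ z) :
    g (x + y - z) = g x + g y - g z := by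
  by_cases hn : cr (x - z) (y - z) = 0
  · obtain ⟨v, hv⟩ := ex_ind (sub_ne_zero.2 hx)
    have a := add1 h (x := x) (y := z + v) (z := z) (by simpa using hv)
    have b := add1 h (x := x + (z + v) - z) (y := y) (z := z + v) (fun e => hv (by
      simp only [cr, Prod.fst_sub, Prod.snd_sub, Prod.fst_add, Prod.snd_add] at e hn ⊢
      linear_combination hn - e))
    rw [a] at b
    rw [show x + y - z = x + (z + v) - z + y - (z + v) by abel, b]
    abel
  · exact add1 h hn

lemma frame {x y : F × F} (hxy : x ≠ y) :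
    ∃ g : Equiv.Perm (F × F), Pres g (Ls F) ∧ g (0, 0) = x ∧ g (1, 0) = y := by
  obtain ⟨v, hv⟩ := ex_ind (sub_ne_zero.2 hxy.symm)
  obtain ⟨u, hu⟩ : ∃ u, u = y - x := ⟨_, rfl⟩
  rw [← hu] at hv
  let g : Equiv.Perm (F × F) :=
    { toFun := fun p => x + p.1 • u + p.2 • v
      invFun := fun p => (cr (p - x) v / cr u v, cr u (p - x) / cr u v)
      left_inv := fun p => Prod.ext (by
        simp only; rw [div_eq_iff hv]; simp [cr]; ring) (by
        simp only; rw [div_eq_iff hv]; simp [cr]; ring)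
      right_inv := fun p => Prod.ext (by
        simp only [Prod.fst_add, Prod.smul_fst, smul_eq_mul]; field_simp; simp [cr]; ring) (by
        simp only [Prod.snd_add, Prod.smul_snd, smul_eq_mul]; field_simp; simp [cr]; ring) }
  have k : ∀ a b p, g p ∈ ln (g a) (g b) ↔ p ∈ ln a b := by
    intro a b p
    have : cr (g b - g a) (g p - g a) = cr u v * cr (b - a) (p - a) := by simp [g, cr]; ring
    simp only [ln, mem_ofPred_eq, this, mul_eq_zero, hv, false_or]
  refine ⟨g, pres_of ?_ ?_, by simp [g], by simp [g, hu]⟩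
  · rintro _ ⟨a, b, hab, rfl⟩
    refine ⟨g a, g b, g.injective.ne hab, ?_⟩
    ext p
    rw [mem_image_equiv, ← k, Equiv.apply_symm_apply]
  · rintro _ ⟨a, b, hab, rfl⟩
    refine ⟨g.symm a, g.symm b, g.symm.injective.ne hab, ?_⟩
    ext p
    rw [mem_image_equiv, ← k (g.symm a)]
    simp

lemma st2 : Steiner 2 (Ls F) ∨ Finite F := by
  classical
  rcases finite_or_infinite F with h | h
  · exact Or.inr h
  refine Or.inl ⟨?_, ⟨ln (0, 0) (1, 0), ⟨_, _, by simp, rfl⟩, ln (0, 0) (0, 1), ⟨_, _, by simp, rfl⟩,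
    fun e => by simpa [ln, cr] using e.subset (r_mem _ _)⟩, fun s hs => ?_⟩
  · rintro _ ⟨x, y, hxy, rfl⟩
    rw [(infinite_of_injective_forall_mem (f := fun t : F => x + t • (y - x)) (fun s t e =>
      smul_left_injective F (sub_ne_zero.2 hxy.symm) (add_left_cancel e))
      (fun t => by simp [ln, cr]; ring)).encard_eq]
    exact le_top
  · obtain ⟨x, y, hxy, rfl⟩ := Finset.card_eq_two.1 hs
    refine ⟨ln x y, ⟨⟨x, y, hxy, rfl⟩, by simp [insert_subset_iff, l_mem, r_mem]⟩, ?_⟩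
    rintro _ ⟨⟨u, v, huv, rfl⟩, e⟩
    exact (ln_eq huv hxy (e (by simp)) (e (by simp))).symm

/-- four-element sets with sum zero -/
def Qs (G : Type) [AddCommGroup G] : Set (Set G) :=
  {b | ∃ T : Finset G, T.card = 4 ∧ ∑ x ∈ T, x = 0 ∧ b = T}

lemma st3 {G : Type} [AddCommGroup G] [Infinite G] (h2 : ∀ x : G, x + x = 0) :
    Steiner 3 (Qs G) := by
  classical
  have ex : ∀ s : Finset G, s.card = 3 → -∑ x ∈ s, x ∉ s := by
    intro s hs hm
    have a := Finset.add_sum_erase s (fun x => x) hm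
    obtain ⟨u, v, huv, e⟩ := Finset.card_eq_two.1 (show (s.erase (-∑ x ∈ s, x)).card = 2 by
      rw [Finset.card_erase_of_mem hm, hs])
    rw [e, Finset.sum_pair huv] at a
    have b : u + v = ∑ x ∈ s, x + ∑ x ∈ s, x := by rw [← neg_add_eq_iff_eq_add, a]
    rw [h2, ← h2 v] at b
    exact huv (add_right_cancel b)
  have mem : ∀ s : Finset G, s.card = 3 →
      ((insert (-∑ x ∈ s, x) s : Finset G) : Set G) ∈ Qs G := fun s hs =>
    ⟨_, by rw [Finset.card_insert_of_notMem (ex s hs), hs], by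
      rw [Finset.sum_insert (ex s hs)]; simp, rfl⟩
  refine ⟨?_, ?_, fun s hs => ⟨_, ⟨mem s hs, by simp⟩, ?_⟩⟩
  · rintro _ ⟨T, a, -, rfl⟩
    simp [a]
  · obtain ⟨s, hs⟩ := Infinite.exists_subset_card_eq G 3
    obtain ⟨w, hw⟩ := Infinite.exists_notMem_finset (insert (-∑ x ∈ s, x) s)
    obtain ⟨t, t1, t2⟩ := Infinite.exists_superset_card_eq {w} 3 (by simp)
    refine ⟨_, mem s hs, _, mem t t2, fun e => hw ?_⟩
    rw [Finset.coe_inj.1 e]
    exact Finset.mem_insert_of_mem (t1 (by simp))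
  · rintro _ ⟨⟨T, a, b, rfl⟩, e⟩
    obtain ⟨w, hw, rfl⟩ := Finset.exists_eq_insert_iff.2 ⟨Finset.coe_subset.1 e, by omega⟩
    rw [Finset.sum_insert hw] at b
    rw [eq_neg_of_add_eq_zero_left b]

lemma pq (h2 : ∀ x : F × F, x + x = 0) {g : Equiv.Perm (F × F)} (h : Pres g (Ls F)) :
    ∀ b ∈ Qs (F × F), g '' b ∈ Qs (F × F) := by
  classical
  rintro _ ⟨T, a, b, rfl⟩
  refine ⟨T.image g, by rw [Finset.card_image_of_injective _ g.injective, a], ?_, by simp⟩
  rw [Finset.sum_image g.injective.injOn]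
  obtain ⟨w, s, hw, rfl, hs⟩ := Finset.card_eq_succ.1 a
  obtain ⟨x, y, z, xy, xz, yz, rfl⟩ := Finset.card_eq_three.1 hs
  have e : ∀ f : F × F → F × F, ∑ p ∈ insert w {x, y, z}, f p = f w + (f x + (f y + f z)) := by
    intro f
    rw [Finset.sum_insert hw, Finset.sum_insert (by simp [xy, xz]), Finset.sum_pair yz]
  rw [e] at b ⊢
  have : w = x + y - z := by linear_combination (exp := 1) b - h2 x - h2 y
  rw [this, add2 h xz]
  linear_combination (exp := 1) h2 (g x) + h2 (g y)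

end Aux

/-- A `2`-transitive Steiner `2`-system on a countably infinite set whose automorphism group
preserves a Steiner `3`-system. -/
theorem result : ∃ (Ω : Type) (_ : Countable Ω) (_ : Infinite Ω) (k l : ℕ) (B C : Set (Set Ω)),
    2 ≤ k ∧ 2 ≤ l ∧ k ≠ l ∧ Steiner k B ∧ Steiner l C ∧
    (∀ x y : Fin k ↪ Ω, ∃ g : Equiv.Perm Ω, Pres g B ∧ ∀ i, g (x i) = y i) ∧
    ∀ g : Equiv.Perm Ω, Pres g B → Pres g C := by
  let F := FractionRing (Polynomial (ZMod 2))
  have inj := IsFractionRing.injective (Polynomial (ZMod 2)) F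
  have : Infinite F := Infinite.of_injective _ inj
  have : Countable F := by
    rw [← Cardinal.mk_le_aleph0_iff, IsFractionRing.cardinalMk (Polynomial (ZMod 2)) F]
    exact Polynomial.cardinalMk_le_max.trans (by simp)
  have h1 : (2 : F) = 0 := by
    rw [← map_ofNat (algebraMap (Polynomial (ZMod 2)) F), ← map_ofNat Polynomial.C,
      show (OfNat.ofNat 2 : ZMod 2) = 0 from rfl]
    simp
  have h2 : ∀ x : F × F, x + x = 0 := fun x => by rw [← two_smul F, h1, zero_smul]
  refine ⟨F × F, inferInstance, inferInstance, 2, 3, Ls F, Qs (F × F), le_rfl, by norm_num,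
    by norm_num, st2.resolve_right (not_finite_iff_infinite.2 ‹_›), st3 h2, fun x y => ?_,
    fun g h => pres_of (pq h2 h) (pq h2 h.symm)⟩
  obtain ⟨g, a, b, c⟩ := frame (x.injective.ne (show (0 : Fin 2) ≠ 1 by decide))
  obtain ⟨g', a', b', c'⟩ := frame (y.injective.ne (show (0 : Fin 2) ≠ 1 by decide))
  refine ⟨g.symm.trans g', a.symm.trans a', fun i => ?_⟩
  fin_cases i
  · simp [← b, b']
  · simp [← c, c']

end Pool.Agent.Results.MP_19fe04_lc.Plane
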